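import Pool.Agent.GTO.StmtsD

/-!
# Squad GTO, row FA2: a family of sets with small intersections
-/

set_option autoImplicit false

namespace Pool.Agent.GTO.B3.H76

open Finset
open scoped Classical

variable {ι : Type} [Fintype ι]

/-- the number of members of `T` containing `p` -/
noncomputable def rr (T : Finset (Finset ι)) (p : ι) : ℕ := (T.filter (fun C => p ∈ C)).card

theorem sum_rr (T : Finset (Finset ι)) (f : Finset ι → ℕ) :
    ∑ p, ∑ C ∈ T.filter (fun C => p ∈ C), f C = ∑ C ∈ T, C.card * f C := by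
  have h1 : ∀ p : ι, ∑ C ∈ T.filter (fun C => p ∈ C), f C =
      ∑ C ∈ T, if p ∈ C then f C else 0 := fun p => Finset.sum_filter _ _
  simp only [h1]
  rw [Finset.sum_comm]
  refine Finset.sum_congr rfl fun C _ => ?_
  rw [← Finset.sum_filter, Finset.sum_const, smul_eq_mul]
  congr 2
  ext p
  simp

theorem sum_rr_one (T : Finset (Finset ι)) : ∑ p, rr T p = ∑ C ∈ T, C.card := by
  have h := sum_rr T (fun _ => 1)
  simp only [Finset.sum_const, smul_eq_mul, mul_one] at h
  exact h

theorem sum_sq (T : Finset (Finset ι))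
    (hT : ∀ C ∈ T, ∀ C' ∈ T, C ≠ C' → (C ∩ C').card ≤ 9) :
    ∑ p, rr T p * (rr T p - 1) ≤ 9 * (T.card * (T.card - 1)) := by
  have h1 : ∀ p : ι, rr T p * (rr T p - 1) =
      ∑ C ∈ T.filter (fun C => p ∈ C), ((T.erase C).filter (fun C' => p ∈ C')).card := by
    intro p
    have h2 : ∀ C ∈ T.filter (fun C => p ∈ C),
        ((T.erase C).filter (fun C' => p ∈ C')).card = rr T p - 1 := by
      intro C hC
      have h3 : (T.erase C).filter (fun C' => p ∈ C') = (T.filter (fun C' => p ∈ C')).erase C := by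
        ext D
        simp only [Finset.mem_filter, Finset.mem_erase]
        tauto
      rw [h3, Finset.card_erase_of_mem hC]
      rfl
    rw [Finset.sum_congr rfl h2, Finset.sum_const, smul_eq_mul]
    rfl
  have h4 : ∑ p, rr T p * (rr T p - 1) = ∑ C ∈ T, ∑ C' ∈ T.erase C, (C ∩ C').card := by
    simp only [h1, Finset.sum_filter]
    rw [Finset.sum_comm]
    refine Finset.sum_congr rfl fun C _ => ?_
    have h5 : ∀ p : ι, (if p ∈ C then ((T.erase C).filter (fun C' => p ∈ C')).card else 0) =
        ∑ C' ∈ T.erase C, if p ∈ C ∩ C' then 1 else 0 := by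
      intro p
      by_cases hp : p ∈ C
      · rw [if_pos hp, Finset.card_filter]
        refine Finset.sum_congr rfl fun C' _ => ?_
        simp [hp]
      · rw [if_neg hp]
        symm
        refine Finset.sum_eq_zero fun C' _ => ?_
        simp [hp]
    simp only [h5]
    rw [Finset.sum_comm]
    refine Finset.sum_congr rfl fun C' _ => ?_
    rw [← Finset.card_filter]
    congr 1
    ext p
    simp
  rw [h4]
  have h6 : ∀ C ∈ T, ∑ C' ∈ T.erase C, (C ∩ C').card ≤ 9 * (T.card - 1) := by
    intro C hC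
    have h7 : ∀ C' ∈ T.erase C, (C ∩ C').card ≤ 9 := fun C' hC' =>
      hT C hC C' (Finset.mem_of_mem_erase hC') (Finset.ne_of_mem_erase hC').symm
    refine (Finset.sum_le_sum h7).trans (le_of_eq ?_)
    rw [Finset.sum_const, smul_eq_mul, Finset.card_erase_of_mem hC, mul_comm]
  refine (Finset.sum_le_sum h6).trans (le_of_eq ?_)
  rw [Finset.sum_const, smul_eq_mul]
  ring

theorem le_one_add (r : ℕ) : 2 * r ≤ 2 + r * (r - 1) := by
  rcases r with _ | _ | _ | r
  · norm_num
  · norm_num
  · norm_num
  · have : r + 1 + 1 + 1 - 1 = r + 2 := by omega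
    rw [this]
    nlinarith

/-- FA2 -/
theorem fa2 : Fa2Stmt := by
  intro ι _ F M n R ng hn hn1 hsize hint hng
  have hRn : R.card ≤ n := by rw [hn]; exact Finset.card_le_univ R
  have hcompl : (univ \ R).card = n - R.card := by
    rw [Finset.card_sdiff_of_subset (Finset.subset_univ R), Finset.card_univ, hn]
  obtain ⟨s, hs⟩ : ∃ s : ℕ, s = ∑ C ∈ F, C.card := ⟨_, rfl⟩
  obtain ⟨S, hS⟩ : ∃ S : ℕ, S = ∑ p ∈ univ \ R, ng p := ⟨_, rfl⟩
  obtain ⟨k, hk⟩ : ∃ k : ℕ, k = F.card := ⟨_, rfl⟩
  obtain ⟨Q, hQ⟩ : ∃ Q : ℕ, Q = ∑ C ∈ F, C.card * (C.card - 1) := ⟨_, rfl⟩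
  rw [← hS, ← hk]
  refine ⟨s, ?_, ?_, ?_⟩
  · -- part 1
    have h1 : (n - R.card) * (2 * (n - 1)) ≤ 2 * Q + S := by
      have h2 : ∑ _p ∈ univ \ R, 2 * (n - 1) ≤
          ∑ p ∈ univ \ R, (2 * ∑ C ∈ F.filter (fun C => p ∈ C), (C.card - 1) + ng p) := by
        refine Finset.sum_le_sum fun p hp => hng p ?_
        exact (Finset.mem_sdiff.1 hp).2
      rw [Finset.sum_const, hcompl, smul_eq_mul, Finset.sum_add_distrib, ← Finset.mul_sum,
        ← hS] at h2
      have h3 : ∑ p ∈ univ \ R, ∑ C ∈ F.filter (fun C => p ∈ C), (C.card - 1) ≤ Q := by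
        rw [hQ, ← sum_rr F (fun C => C.card - 1)]
        exact Finset.sum_le_sum_of_subset (Finset.sdiff_subset)
      omega
    have h2 : 2 * Q + 2 * s + k * (M * (n + 459)) ≤ (n + 459 + 2 * M) * s := by
      have h3 : ∀ C ∈ F, 2 * (C.card * (C.card - 1)) + 2 * C.card + M * (n + 459) ≤
          (n + 459 + 2 * M) * C.card := by
        intro C hC
        obtain ⟨h4, h5⟩ := hsize C hC
        obtain ⟨c, hc⟩ : ∃ c : ℕ, c = C.card := ⟨_, rfl⟩
        rw [← hc] at h4 h5 ⊢
        have h6 : 2 * (c * (c - 1)) + 2 * c = 2 * c * c := by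
          rcases c with _ | c
          · rfl
          · rw [Nat.add_sub_cancel]; ring
        rw [h6]
        obtain ⟨u, hu⟩ : ∃ u, c = M + u := ⟨c - M, by omega⟩
        obtain ⟨v, hv⟩ : ∃ v, n + 459 = 2 * c + v := ⟨n + 459 - 2 * c, by omega⟩
        rw [hv, hu]
        nlinarith [Nat.zero_le (u * v)]
      have h7 := Finset.sum_le_sum h3
      have h8 : ∑ C ∈ F, (n + 459 + 2 * M) * C.card = (n + 459 + 2 * M) * s := by
        rw [← Finset.mul_sum, ← hs]
      rw [Finset.sum_add_distrib, Finset.sum_add_distrib, ← Finset.mul_sum, ← Finset.mul_sum,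
        h8, ← hs, ← hQ, Finset.sum_const, smul_eq_mul, ← hk] at h7
      exact h7
    have h3 : (n + 459 + 2 * M) * s = (2 * M + n + 457) * s + 2 * s := by ring
    have h4 : k * M * (n + 459) = k * (M * (n + 459)) := by ring
    have h5 : 2 * (n - R.card) * (n - 1) = (n - R.card) * (2 * (n - 1)) := by ring
    rw [h4, h5]
    omega
  · -- part 2
    have h1 := sum_sq F hint
    rw [← hk] at h1
    have h2 : ∑ p, rr F p ^ 2 ≤ s + 9 * (k * (k - 1)) := by
      have h3 : ∀ p : ι, rr F p ^ 2 = rr F p * (rr F p - 1) + rr F p := by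
        intro p
        rcases rr F p with _ | r
        · rfl
        · rw [Nat.add_sub_cancel]; ring
      simp only [h3]
      rw [Finset.sum_add_distrib, sum_rr_one, ← hs]
      omega
    have h4 : (∑ p, rr F p) ^ 2 ≤ n * ∑ p, rr F p ^ 2 := by
      have h5 := sq_sum_le_card_mul_sum_sq (s := (univ : Finset ι)) (f := fun p => rr F p)
      rw [Finset.card_univ, ← hn] at h5
      exact h5
    rw [sum_rr_one, ← hs] at h4
    calc s * s = s ^ 2 := (sq s).symm
      _ ≤ n * ∑ p, rr F p ^ 2 := h4
      _ ≤ n * (s + 9 * (k * (k - 1))) := Nat.mul_le_mul_left n h2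
  · -- part 3
    obtain ⟨B, hB⟩ : ∃ B : Finset (Finset ι), B = F.filter (fun C => n ≤ 4 * C.card) := ⟨_, rfl⟩
    have hBF : ∀ C ∈ B, C ∈ F ∧ n ≤ 4 * C.card := by
      intro C hC
      rw [hB] at hC
      exact Finset.mem_filter.1 hC
    have hB4 : B.card ≤ 4 := by
      by_contra hlt
      push Not at hlt
      obtain ⟨T, hTB, hT5⟩ := Finset.exists_subset_card_eq (s := B) (n := 5) (by omega)
      have h1 := sum_sq T (fun C hC C' hC' hne =>
        hint C (hBF C (hTB hC)).1 C' (hBF C' (hTB hC')).1 hne)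
      rw [hT5] at h1
      have h2 : 2 * ∑ p, rr T p ≤ 2 * n + ∑ p, rr T p * (rr T p - 1) := by
        have h3 := Finset.sum_le_sum (s := (univ : Finset ι)) fun p _ => le_one_add (rr T p)
        rw [← Finset.mul_sum, Finset.sum_add_distrib, Finset.sum_const, smul_eq_mul,
          Finset.card_univ, ← hn] at h3
        omega
      rw [sum_rr_one] at h2
      have h4 : 5 * n ≤ 4 * ∑ C ∈ T, C.card := by
        rw [Finset.mul_sum]
        have h5 : ∑ _C ∈ T, n ≤ ∑ C ∈ T, 4 * C.card :=
          Finset.sum_le_sum fun C hC => (hBF C (hTB hC)).2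
        rw [Finset.sum_const, hT5, smul_eq_mul] at h5
        exact h5
      omega
    obtain ⟨E, hE⟩ : ∃ E : Finset ι, E = univ.filter (fun p => 2 ≤ rr B p) := ⟨_, rfl⟩
    have hE54 : E.card ≤ 54 := by
      have h1 := sum_sq B (fun C hC C' hC' hne =>
        hint C (hBF C hC).1 C' (hBF C' hC').1 hne)
      have h2 : 9 * (B.card * (B.card - 1)) ≤ 108 := by
        have h3 : B.card * (B.card - 1) ≤ 4 * 3 := Nat.mul_le_mul hB4 (by omega)
        omega
      have h3 : 2 * E.card ≤ ∑ p, rr B p * (rr B p - 1) := by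
        have h4 : ∑ _p ∈ E, 2 ≤ ∑ p ∈ E, rr B p * (rr B p - 1) := by
          refine Finset.sum_le_sum fun p hp => ?_
          rw [hE] at hp
          have h5 := (Finset.mem_filter.1 hp).2
          have h6 : 2 * 1 ≤ rr B p * (rr B p - 1) := Nat.mul_le_mul h5 (by omega)
          omega
        have h7 : ∑ p ∈ E, rr B p * (rr B p - 1) ≤ ∑ p, rr B p * (rr B p - 1) :=
          Finset.sum_le_sum_of_subset (Finset.subset_univ E)
        rw [Finset.sum_const, smul_eq_mul] at h4
        omega
      omega
    obtain ⟨w, hw⟩ : ∃ w : ι → ℕ, ∀ p, w p = if rr F p ≤ 1 then 2 else if rr F p = 2 then 1 else 0 :=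
      ⟨_, fun p => rfl⟩
    obtain ⟨m, hm⟩ : ∃ m : ℕ, n = m + 918 := ⟨n - 918, by omega⟩
    have hm' : n - 918 = m := by omega
    rw [hm']
    -- the points outside of `E`
    have hkey : ∀ p, p ∉ R → p ∉ E → m * w p ≤ 2 * ng p := by
      intro p hpR hpE
      have h1 := hng p hpR
      have hrB : rr B p ≤ 1 := by
        by_contra hlt
        apply hpE
        rw [hE]
        exact Finset.mem_filter.2 ⟨Finset.mem_univ p, by omega⟩
      rw [hw]
      by_cases hr1 : rr F p ≤ 1
      · rw [if_pos hr1]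
        have h2 : 2 * ∑ C ∈ F.filter (fun C => p ∈ C), (C.card - 1) ≤ n + 457 := by
          rcases Nat.eq_zero_or_pos (rr F p) with h0 | h0
          · have h3 : F.filter (fun C => p ∈ C) = ∅ := Finset.card_eq_zero.1 h0
            rw [h3, Finset.sum_empty]
            omega
          · have h3 : (F.filter (fun C => p ∈ C)).card = 1 := by
              have : rr F p = 1 := by omega
              exact this
            obtain ⟨C, hC⟩ := Finset.card_eq_one.1 h3
            rw [hC, Finset.sum_singleton]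
            have h4 : C ∈ F.filter (fun C => p ∈ C) := by rw [hC]; exact Finset.mem_singleton_self C
            have h5 := (hsize C (Finset.mem_filter.1 h4).1).2
            omega
        omega
      · rw [if_neg hr1]
        by_cases hr2 : rr F p = 2
        · rw [if_pos hr2]
          have h3 : (F.filter (fun C => p ∈ C)).card = 2 := hr2
          obtain ⟨C, C', hne, hCC⟩ := Finset.card_eq_two.1 h3
          have hC : C ∈ F.filter (fun C => p ∈ C) := by rw [hCC]; simp
          have hC' : C' ∈ F.filter (fun C => p ∈ C) := by rw [hCC]; simp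
          obtain ⟨hCF, hpC⟩ := Finset.mem_filter.1 hC
          obtain ⟨hCF', hpC'⟩ := Finset.mem_filter.1 hC'
          rw [hCC, Finset.sum_pair hne] at h1
          have h5 := (hsize C hCF).2
          have h5' := (hsize C' hCF').2
          have hc0 : 0 < C.card := Finset.card_pos.2 ⟨p, hpC⟩
          have hc0' : 0 < C'.card := Finset.card_pos.2 ⟨p, hpC'⟩
          have h6 : 4 * C.card < n ∨ 4 * C'.card < n := by
            by_contra hcon
            push Not at hcon
            have h7 : C ∈ B.filter (fun C => p ∈ C) := by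
              rw [hB]
              exact Finset.mem_filter.2 ⟨Finset.mem_filter.2 ⟨hCF, hcon.1⟩, hpC⟩
            have h8 : C' ∈ B.filter (fun C => p ∈ C) := by
              rw [hB]
              exact Finset.mem_filter.2 ⟨Finset.mem_filter.2 ⟨hCF', hcon.2⟩, hpC'⟩
            have h9 : 1 < (B.filter (fun C => p ∈ C)).card :=
              Finset.one_lt_card.2 ⟨C, h7, C', h8, hne⟩
            have h10 : rr B p = (B.filter (fun C => p ∈ C)).card := rfl
            omega
          rcases h6 with h6 | h6 <;> omega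
        · rw [if_neg hr2]
          omega
    have hwE : ∀ p ∈ E, w p ≤ 1 := by
      intro p hp
      rw [hE] at hp
      have h5 := (Finset.mem_filter.1 hp).2
      have h6 : rr B p ≤ rr F p := by
        unfold rr
        refine Finset.card_le_card (Finset.filter_subset_filter _ ?_)
        rw [hB]
        exact Finset.filter_subset _ _
      rw [hw, if_neg (by omega)]
      split_ifs <;> omega
    have hsum : m * ∑ p ∈ univ \ R, w p ≤ 2 * S + 54 * m := by
      have h1 : ∑ p ∈ univ \ R, m * w p ≤
          ∑ p ∈ univ \ R, (2 * ng p + if p ∈ E then m else 0) := by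
        refine Finset.sum_le_sum fun p hp => ?_
        by_cases hpE : p ∈ E
        · rw [if_pos hpE]
          have := Nat.mul_le_mul_left m (hwE p hpE)
          omega
        · rw [if_neg hpE]
          have := hkey p (Finset.mem_sdiff.1 hp).2 hpE
          omega
      rw [← Finset.mul_sum, Finset.sum_add_distrib, ← Finset.mul_sum, ← hS] at h1
      have h2 : ∑ p ∈ univ \ R, (if p ∈ E then m else 0) ≤ 54 * m := by
        have h3 : ∑ p ∈ univ \ R, (if p ∈ E then m else 0) ≤ ∑ p, (if p ∈ E then m else 0) :=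
          Finset.sum_le_sum_of_subset Finset.sdiff_subset
        have h4 : ∑ p, (if p ∈ E then m else 0) = E.card * m := by
          rw [← Finset.sum_filter, Finset.sum_const, smul_eq_mul, Finset.filter_mem_eq_inter,
            Finset.univ_inter]
        have h5 : E.card * m ≤ 54 * m := Nat.mul_le_mul_right m hE54
        rw [h4] at h3
        exact h3.trans h5
      omega
    have hfour : 4 * (n - R.card) ≤ 9 * (k * (k - 1)) + 2 * ∑ p ∈ univ \ R, w p := by
      have h1 : ∀ p : ι, 4 ≤ rr F p * (rr F p - 1) + 2 * w p := by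
        intro p
        rw [hw]
        split_ifs with ha hb
        · omega
        · rw [hb]
        · have h3 : 3 ≤ rr F p := by omega
          have h4 : 3 * 2 ≤ rr F p * (rr F p - 1) := Nat.mul_le_mul h3 (by omega)
          omega
      have h2 : ∑ _p ∈ univ \ R, 4 ≤ ∑ p ∈ univ \ R, (rr F p * (rr F p - 1) + 2 * w p) :=
        Finset.sum_le_sum fun p _ => h1 p
      rw [Finset.sum_const, hcompl, smul_eq_mul, Finset.sum_add_distrib, ← Finset.mul_sum] at h2
      have h3 : ∑ p ∈ univ \ R, rr F p * (rr F p - 1) ≤ ∑ p, rr F p * (rr F p - 1) :=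
        Finset.sum_le_sum_of_subset Finset.sdiff_subset
      have h4 := sum_sq F hint
      rw [← hk] at h4
      omega
    have h5 := Nat.mul_le_mul_right m hfour
    have h6 : (9 * (k * (k - 1)) + 2 * ∑ p ∈ univ \ R, w p) * m =
        9 * (k * (k - 1)) * m + 2 * (m * ∑ p ∈ univ \ R, w p) := by ring
    rw [h6] at h5
    have h7 : 108 * m = 2 * (54 * m) := by ring
    omega

end Pool.Agent.GTO.B3.H76
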